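import Pool.Agent.H563Z.GT.F

set_option autoImplicit false

namespace Pool.Agent.Results.MP_2c76b2_co.Disproof

open SimpleGraph

/-- There is a graph `H` (the path on three vertices) such that for every `r` some graph `F` of
chromatic number larger than `r` has, for infinitely many `n`, no `n`-vertex `F`-free graph that
maximises both the number of copies of `H` and the number of copies of `K_2` (edges). -/
theorem result :
    ∃ (h : ℕ) (H : SimpleGraph (Fin h)), ∀ r : ℕ, ∃ (f : ℕ) (F : SimpleGraph (Fin f)),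
      (r : ℕ∞) < F.chromaticNumber ∧ ∀ n₀ : ℕ, ∃ n : ℕ, n₀ ≤ n ∧
        ¬ ∃ G : SimpleGraph (Fin n), F.Free G ∧
          (∀ G' : SimpleGraph (Fin n), F.Free G' → G'.copyCount H ≤ G.copyCount H) ∧
          (∀ G' : SimpleGraph (Fin n), F.Free G' → G'.edgeSet.ncard ≤ G.edgeSet.ncard) := by
  refine ⟨3, pathGraph 3, fun r => ?_⟩
  let e := Fintype.equivFin (Pool.Agent.H563Z.GT.XV r (2 * (8 * (r + 2)) + 1))
  let F := (Pool.Agent.H563Z.GT.FG r (2 * (8 * (r + 2)) + 1)).map e.toEmbedding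
  have iso : Pool.Agent.H563Z.GT.FG r (2 * (8 * (r + 2)) + 1) ≃g F := Iso.map e _
  have hfree : ∀ {n : ℕ} (G : SimpleGraph (Fin n)),
      F.Free G ↔ (Pool.Agent.H563Z.GT.FG r (2 * (8 * (r + 2)) + 1)).Free G := fun G =>
    ⟨fun h h' => h (iso.symm.isContained.trans h'), fun h h' => h (iso.isContained.trans h')⟩
  refine ⟨_, F, ?_, fun n₀ => ?_⟩
  · have h1 := Pool.Agent.H563Z.GT.chrom r (2 * (8 * (r + 2)))
    exact (le_self_add.trans_lt h1).trans_le (chromaticNumber_mono_of_hom iso.toHom)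
  · obtain ⟨n, hn, h⟩ := Pool.Agent.H563Z.GT.main r n₀
    refine ⟨n, hn, ?_⟩
    rintro ⟨G, h1, h2, h3⟩
    exact h G ((hfree G).1 h1) (fun G' hG' => h3 G' ((hfree G').2 hG'))
      (fun G' hG' => h2 G' ((hfree G').2 hG'))

end Pool.Agent.Results.MP_2c76b2_co.Disproof
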